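import Pool.Agent.Helper79.OB.GoalsC

/-!
# Packet OB-FRAME: the frames of the steps
-/

set_option autoImplicit false

namespace Pool.Agent.Helper56.OB

open Pool.Agent.Helper73.OB Pool.Agent.Helper79.OB

theorem bet_bet (d k : ℕ) (s : Ltr d) : bet d k (bet d k s) = s := by
  unfold bet
  by_cases h : (s.1 : ℕ) < k
  · simp [h]
  · simp [h]

theorem bit_one : ∀ z w : Bit, decide (z = 1) = decide (w = 1) → z = w := by decide

theorem bit_two : ∀ z : Bit, (!decide (z = 1)) = decide (z + 1 + 0 = 1) := by decide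

theorem bit_three : ∀ z : Bit, decide (z = 1) = decide (z + 1 + 1 = 1) := by decide

theorem pk_inj {d : ℕ} (i : Fin d) : Function.Injective (pk i) := by
  intro z w h
  exact bit_one z w (congrArg Prod.snd h)

theorem mem_range_pk {d : ℕ} (i : Fin d) (a : Ltr d) : a ∈ Set.range (pk i) ↔ a.1 = i := by
  constructor
  · rintro ⟨z, rfl⟩
    rfl
  · rintro rfl
    rcases a with ⟨j, b⟩
    cases b
    · exact ⟨0, rfl⟩
    · exact ⟨1, rfl⟩

/-- FRAME. -/
theorem th_frame : Pool.Agent.Helper79.OB.S_FRAME := by
  intro d i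
  refine ⟨⟨bet_bet d i, pk_inj i, ?_⟩, ⟨bet_bet d (i + 1), pk_inj i, ?_⟩, ?_, ?_, ?_, ?_, ?_⟩
  · intro z
    have h1 : bet d i (pk i z) = (i, !decide (z = 1)) := by
      unfold bet pk
      rw [if_neg (lt_irrefl _)]
    rw [h1]
    unfold pk
    rw [bit_two z]
  · intro z
    have h1 : bet d (i + 1) (pk i z) = (i, decide (z = 1)) := by
      unfold bet pk
      rw [if_pos (Nat.lt_succ_self _)]
    rw [h1]
    unfold pk
    rw [← bit_three z]
  · intro a ha
    rw [mem_range_pk] at ha
    have h1 : (a.1 : ℕ) ≠ i := fun h => ha (Fin.ext h)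
    have h2 : (a.1 : ℕ) < i ↔ (a.1 : ℕ) < i + 1 := by omega
    unfold bet
    by_cases h3 : (a.1 : ℕ) < i
    · rw [if_pos h3, if_pos (h2.1 h3)]
    · rw [if_neg h3, if_neg (fun h => h3 (h2.2 h))]
  · intro hd
    obtain ⟨j, hj⟩ : ∃ j : Fin d, j ≠ i := by
      have : Nontrivial (Fin d) := Fin.nontrivial_iff_two_le.2 hd
      exact exists_ne i
    refine ⟨(j, true), (j, false), ?_, ?_, ?_⟩
    · intro h
      have := congrArg Prod.snd h
      cases this
    · rw [mem_range_pk]
      exact hj
    · rw [mem_range_pk]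
      exact hj
  · intro hd
    obtain ⟨j, hj⟩ : ∃ j : Fin d, j ≠ i := by
      have : Nontrivial (Fin d) := Fin.nontrivial_iff_two_le.2 (by omega)
      exact exists_ne i
    obtain ⟨k, hki, hkj⟩ : ∃ k : Fin d, k ≠ i ∧ k ≠ j := by
      by_contra hcon
      push Not at hcon
      have h1 : (Finset.univ : Finset (Fin d)) ⊆ {i, j} := by
        intro x _
        by_cases h2 : x = i
        · simp [h2]
        · simp [hcon x h2]
      have h2 := Finset.card_le_card h1
      rw [Finset.card_univ, Fintype.card_fin] at h2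
      have h3 := Finset.card_le_two (a := i) (b := j)
      omega
    have hf : Function.Injective (fun x : Fin 3 =>
        (if x = 0 then ⟨(j, true), by rw [mem_range_pk]; exact hj⟩
          else if x = 1 then ⟨(j, false), by rw [mem_range_pk]; exact hj⟩
          else ⟨(k, true), by rw [mem_range_pk]; exact hki⟩ :
            {a : Ltr d // a ∉ Set.range (pk i)})) := by
      intro x y hxy
      fin_cases x <;> fin_cases y <;> simp_all [Subtype.ext_iff, eq_comm]
    have h1 := Nat.card_le_card_of_injective _ hf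
    rwa [Nat.card_eq_fintype_card, Fintype.card_fin] at h1
  · intro a
    unfold bet
    rw [if_pos a.1.2]
  · intro a
    unfold bet
    rw [if_neg (Nat.not_lt_zero _)]

end Pool.Agent.Helper56.OB
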